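import Pool.Agent.K4H89.J.Fin

/-!
# NIP fields of positive characteristic with a branching valuation satisfy Shelah's conjecture

Let `K` be an NIP field of characteristic `p > 0`, and suppose that some field `K'` elementarily
equivalent to `K` (for example `K' = K`) has a valuation ring `O` which is branching at a prime `ℓ`:
its value group `Γ` is not `ℓ`-divisible, and its residue field has a finite separable extension of
degree divisible by `ℓ` or `Γ / ℓ Γ` is not cyclic. It is not assumed that `O` is henselian or
definable. Then `K` has a nontrivial henselian valuation ring which is definable with parameters
(the conclusion of Question 1), and so has `K'`; for `K'` one can take a coarsening of `O`.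

Proof. By `DefinableCoarsenings` some nontrivial coarsening `O'` of `O` is definable. By the theorems
of Kaplan, Scanlon and Wagner (infinite NIP fields of positive characteristic have no
Artin-Schreier extensions) and of Johnson (definable valuation rings of these fields are henselian)
`O'` is henselian. Both theorems are proved here, in `Pool.Agent.K4H89.J`: for the first one, the
Baldwin-Saxl condition for the groups `a (x ^ p - x)` and an explicit parametrization of the
solutions of `a_1 (x_1 ^ p - x_1) = ... = a_n (x_n ^ p - x_n)` by Moore determinants; for the second
one, let `L` be a finite extension of the field where a polynomial which violates Hensel's lemma has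
an approximate root `y` whose conjugates are `0` and `1` modulo the valuation, and both occur. Let
`J` be the group of the elements of `L` all of whose conjugates are nonunits. The groups of the `x`
in `J` such that `r x` is of the form `z ^ p - z` with `z` in `J`, for `r` in the valuation ring,
have bounded index in `J`, hence their intersection has finite index in `J`, and equals `J`. So
`y ^ p - y = z ^ p - z` for some `z` in `J`, and `y - z` is in the prime field, a contradiction.
-/

set_option autoImplicit false

namespace Pool.Agent.Results.MP_3554b5_lc.BranchingCharP

open Pool.Agent.W882.Nip3 Pool.Agent.K4H89.NV

/-- Let `K` be an NIP field (the hypothesis of `S14569`) of characteristic `p > 0`, let `K'` be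
elementarily equivalent to `K`, and let `O` be a valuation ring of `K'` which is branching at some
prime number. Then some henselian valuation ring of `K'` which contains `O` and is different from
`K'` is definable with parameters in the language of rings, and so is some henselian valuation ring
of `K` different from `K`. -/
theorem result (K : Type) [Field K] [FirstOrder.Ring.CompatibleRing K] (hK : NIPField K)
    (p : ℕ) (hp : p.Prime) [CharP K p]
    (K' : Type) [Field K'] [FirstOrder.Ring.CompatibleRing K']
    (he : FirstOrder.Language.ring.ElementarilyEquivalent K K')
    (O : ValuationSubring K') (ℓ : ℕ) (hℓ : ℓ.Prime) (hO : Branching O ℓ) :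
    (∃ O' : ValuationSubring K', O ≤ O' ∧ O' ≠ ⊤ ∧ HenselianLocalRing O' ∧ Definable O') ∧
      ∃ O' : ValuationSubring K, O' ≠ ⊤ ∧ HenselianLocalRing O' ∧ Definable O' := by
  have : Fact p.Prime := ⟨hp⟩
  exact Pool.Agent.K4H89.J.henselian_branching K hK p K' he O ℓ hℓ hO

end Pool.Agent.Results.MP_3554b5_lc.BranchingCharP
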