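import Pool.Agent.K4H89.NV.Final

/-!
# Every branching valuation ring of an NIP field has a nontrivial definable coarsening

Let `K` be a field (a pure field, in the language of rings) which is NIP, or `NIP_n` for some `n`,
or NTP2, and let `O` be a valuation ring of `K` (or of a field elementarily equivalent to `K`). It is
not assumed that `O` is definable, or henselian, or of finite rank. Suppose that `O` is branching at
some prime number `ℓ`: the value group `Γ` is not `ℓ`-divisible, and the residue field has a finite
separable extension of degree divisible by `ℓ` or `Γ / ℓ Γ` is not cyclic. Then some ring between `O`
and the field, different from the field, is definable in the language of rings. So the pure field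
`K` has a nontrivial definable valuation. For rank one the ring `O` itself is definable.

More precisely, if the residue field has a separable extension of degree `d` and the value of `t`
is not divisible by `d`, then the largest ring over `O` for which the value of `t` is not divisible
by `d` is definable; and there is a bound for the number of such largest rings, which depends only on
`d` and the theory of `K`. The starting result `DefinableValuations` is the case of the rings `O`
with principal maximal ideal, where `t` is a generator of the maximal ideal.

Proof. For `O` and `t` as in the last statement (`O` is the largest ring for which the value of `t`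
is not divisible by `d`) and a nonunit `x` the value of some `t y ^ d` lies between `0` and the value
of `x ^ d`. These properties of `(O, t)` are first order, and two such rings for the same `t` are equal
or incomparable. Given finitely many incomparable rings of this kind, choose a nonunit `z_i` of the
`i`-th ring which divides, in this ring, the finitely many elements which show that the rings are
incomparable, and let `F_i` be the completion of the residue field of `O_i [1 / z_i]` for its real
valuation. The composite valuation of `F_i` has the residue field of `O_i`, and the value of
`t y ^ d`, for `x = z_i`, is not divisible by `d` in its value group. So the norm from the unramified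
extension of degree `d` of `F_i` is not surjective, and the starting result `FewBadPlaces` bounds the
number of the rings. Now Kueker's theorem (with a constant for `t`, `Pool.Agent.R492.DW.W1`) shows
that they are definable. If `Γ / ℓ Γ` is not cyclic, then there is a coarsening of the first kind, or
one passes to a coarsening which is regular for all `t` and uses a ramified extension of degree `ℓ`.
-/

set_option autoImplicit false

namespace Pool.Agent.Results.MP_3554b5_lc.DefinableCoarsenings

open Pool.Agent.W882.Nip3 Pool.Agent.K4H89.NV

/-- Let `K` be a field which is NIP (the hypothesis of `S14569`), or `NIP_n` for some `n`, or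
`NTP2`. Let `K'` be elementarily equivalent to `K` (for example `K' = K`).

(1) If a valuation ring `O` of `K'` is branching at some prime number, then some valuation ring of
`K'` which contains `O` and is different from `K'` is definable with parameters in the language of
rings, and so is some valuation ring of `K` different from `K`.

(2) If the residue field of `O` has a separable extension of degree `d ≥ 2` and the value of `t` is
not divisible by `d`, then there is a largest ring over `O` for which the value of `t` is not
divisible by `d`, and it is definable with parameters.

(3) For every `d ≥ 2` there is an `N`, the same for all `K'`, such that for every `t` there are fewer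
than `N` valuation rings as in (2), that is, valuation rings whose residue field has a separable
extension of degree `d`, for which the value of `t` is not divisible by `d`, but is divisible by `d`
for all larger valuation rings; and among any `N` such rings (for different `t`) one contains another
one. -/
theorem result (K : Type) [Field K] [FirstOrder.Ring.CompatibleRing K]
    (hK : NIPField K ∨ (∃ n, NIPnField n K) ∨ NTP2Field K) :
    (∀ (K' : Type) [Field K'] [FirstOrder.Ring.CompatibleRing K'],
      FirstOrder.Language.ring.ElementarilyEquivalent K K' →
      ∀ (O : ValuationSubring K') (ℓ : ℕ), ℓ.Prime → Branching O ℓ →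
        (∃ O' : ValuationSubring K', O ≤ O' ∧ O' ≠ ⊤ ∧ Definable O') ∧
        ∃ O' : ValuationSubring K, O' ≠ ⊤ ∧ Definable O') ∧
    (∀ (K' : Type) [Field K'] [FirstOrder.Ring.CompatibleRing K'],
      FirstOrder.Language.ring.ElementarilyEquivalent K K' →
      ∀ (O : ValuationSubring K') (d : ℕ) (t : K'), 2 ≤ d →
        HasSepExt (IsLocalRing.ResidueField O) d → NotDivisible O d t →
        ∃ O' : ValuationSubring K', O ≤ O' ∧ NotDivisible O' d t ∧
          (∀ O'' : ValuationSubring K', O' < O'' → ¬ NotDivisible O'' d t) ∧ Definable O') ∧
    ∀ d : ℕ, 2 ≤ d → ∃ N : ℕ, ∀ (K' : Type) [Field K'] [FirstOrder.Ring.CompatibleRing K'],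
      FirstOrder.Language.ring.ElementarilyEquivalent K K' →
      (∀ t : K', {O : ValuationSubring K' | HasSepExt (IsLocalRing.ResidueField O) d ∧
        NotDivisible O d t ∧ ∀ O'', O < O'' → ¬ NotDivisible O'' d t}.encard < N) ∧
      ∀ (O : Fin N → ValuationSubring K') (t : Fin N → K'),
        (∀ i, HasSepExt (IsLocalRing.ResidueField (O i)) d ∧ NotDivisible (O i) d (t i) ∧
          ∀ O'', O i < O'' → ¬ NotDivisible O'' d (t i)) → ∃ i j, i ≠ j ∧ O i ≤ O j := by
  have hF := fewPlaces_of K hK
  refine ⟨fun K' _ _ he O ℓ hℓ hO => ?_, fun K' _ _ he O d t hd hE hnd => ?_, fun d hd => ?_⟩
  · obtain ⟨O', h1, h2, h3⟩ := coarse_branching K' (hF.congr he) O hℓ hO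
    exact ⟨⟨O', h1, h2, h3⟩, definable_transfer he ⟨O', h2, h3⟩⟩
  · exact coarse_unram K' (hF.congr he) O hd t hE hnd
  · obtain ⟨N, hN⟩ := few_regular K hF hd
    refine ⟨N, fun K' _ _ he => ?_⟩
    obtain ⟨h1, h2⟩ := hN K' he
    exact ⟨fun t => h2 t, fun O t h => h1 O t h⟩

end Pool.Agent.Results.MP_3554b5_lc.DefinableCoarsenings
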