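import Pool.Agent.K4H89.FR.Stable

/-!
# Formally real fields which are NIP, `NIP_n` or NTP2, and stable fields

Let `K` be a field (a pure field, in the language of rings) which is NIP, or `NIP_n` for some `n`, or
NTP2. For every ordering `o` of `K` one of the following holds:

* some valuation ring of `K`, convex for `o` and different from `K`, is definable with parameters, or
* the ordering `o` is definable with parameters and every polynomial over `K` which changes sign
  between two elements of `K` has values of arbitrarily small absolute value between them (that is,
  `K` is dense in its real closure for `o`).

So the topology of every ordering of `K` is a V-topology which is definable in the language of rings,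
and for the formally real case of Question 1 (where `K` should be real closed or have a definable
henselian valuation) only fields with a definable valuation and fields which are dense in their real
closures remain. If no valuation ring besides `K` is definable, then `K` has only finitely many
orderings, no valuation ring besides `K` is convex for two of them (they are independent), and there
is an `n` such that all sums of squares in `K` are sums of `n` squares.

Stable fields have no definable orderings and no definable valuation rings. Hence stable fields are
not formally real, and no field elementarily equivalent to a stable field has a branching valuation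
ring (Question 1 predicts that infinite stable fields are separably closed).

Proof. If the value group of the natural valuation of `o` is not divisible by two, then the natural
valuation is branching at `2` and the result `DefinableCoarsenings` gives a definable coarsening.
Otherwise the ordering is definable by a starting result (`Pool.Agent.R492.DV.ord_main`). If then a
polynomial `f` with `f (a) < 0 < f (b)` avoids an interval around zero, let `D` be the lower set of the
first gap of `f` between `a` and `b`. The elements `v` with `D + v = D` form a definable convex
subgroup, which contains some `δ > 0` but not `b - a`, and its multipliers form a definable convex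
valuation ring which does not contain `(b - a) / δ`. If no valuation ring is definable then the
number of the orderings is bounded for all fields elementarily equivalent to `K`; if `x i` is not a
sum of `i` squares but a sum of squares, then the class of the `x i` in an ultrapower is not a sum
of squares, although it is positive for all the orderings which come from `K`, so the ultrapower has
more orderings than `K`. This cannot be repeated.
-/

set_option autoImplicit false

namespace Pool.Agent.Results.MP_3554b5_lc.FormallyRealFields

open Pool.Agent.W882.Nip3 Pool.Agent.K4H89.NV Pool.Agent.K4H89.FR
open Pool.Agent.R614.NF (FieldOrder)

/-- Let `K` be a field.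

(1) Suppose that `K` is NIP (the hypothesis of `S14569`), or `NIP_n` for some `n`, or `NTP2`. Then for
every ordering `o` of `K` some valuation ring other than `K`, convex for `o`, is definable with
parameters, or the ordering is definable with parameters and every polynomial over `K` which changes
sign has values of arbitrarily small absolute value in between.

(2) If, moreover, no valuation ring of `K` other than `K` is definable with parameters, then `K` has
finitely many orderings, no valuation ring other than `K` is convex for two different orderings, and
for some `n` all sums of squares are sums of `n` squares.

(3) If `K` is stable (the hypothesis of `S15095`) then `-1` is a sum of squares in `K`, and no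
valuation ring of a field elementarily equivalent to `K` is branching at a prime number. -/
theorem result (K : Type) [Field K] [FirstOrder.Ring.CompatibleRing K] :
    (NIPField K ∨ (∃ n, NIPnField n K) ∨ NTP2Field K →
      (∀ o : FieldOrder K,
        (∃ O : ValuationSubring K, O ≠ ⊤ ∧ Convex O o ∧ Definable O) ∨
          (DefinableOrder o ∧ ApproxRoots o)) ∧
      ((∀ O : ValuationSubring K, Definable O → O = ⊤) →
        Finite (FieldOrder K) ∧
        (∀ o o' : FieldOrder K, o ≠ o' → ∀ O : ValuationSubring K,
          Convex O o → Convex O o' → O = ⊤) ∧
        ∃ n : ℕ, ∀ x : K, IsSumSq x → ∃ y : Fin n → K, x = ∑ i, y i ^ 2)) ∧
    ((∀ (m k : ℕ) (φ : FirstOrder.Language.ring.Formula (Fin m ⊕ Fin k)),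
        ¬ ∀ n : ℕ, ∃ (a : Fin n → Fin m → K) (b : Fin n → Fin k → K),
          ∀ i j : Fin n, (φ.Realize (Sum.elim (a i) (b j)) ↔ i < j)) →
      IsSumSq (-1 : K) ∧
      ∀ (K' : Type) [Field K'] [FirstOrder.Ring.CompatibleRing K'],
        FirstOrder.Language.ring.ElementarilyEquivalent K K' →
        ∀ (O : ValuationSubring K') (ℓ : ℕ), ℓ.Prime → ¬ Branching O ℓ) := by
  refine ⟨fun hK => ⟨fun o => dichotomy hK o, fun hn => ?_⟩, fun hK =>
    ⟨isSumSq_of_stable hK, fun K' _ _ he O ℓ hℓ => not_branching_of_stable hK K' he O ℓ hℓ⟩⟩
  obtain ⟨h1, h2⟩ := noDef_main hK hn
  refine ⟨h1, fun o o' hne O hO hO' => ?_, h2⟩
  by_contra hO1
  have h3 : ApproxRoots o := by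
    rcases dichotomy hK o with ⟨O', h4, -, h5⟩ | h4
    · exact absurd (hn O' h5) h4
    · exact h4.2
  exact hne (order_eq fun a ha => eq_of_convex o o' h3 O hO hO' hO1 a ha)

end Pool.Agent.Results.MP_3554b5_lc.FormallyRealFields
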