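import Pool.Agent.K4H89.J.Fin2

/-!
# Valuation rings of NIP fields of positive characteristic which must be henselian

Let `K` be an NIP field (a pure field, in the language of rings) of characteristic `p > 0` and let
`O` be a valuation ring of a field `K'` elementarily equivalent to `K`, with value group `Γ`. It is
not assumed that `O` is definable, or that the valued field `(K', O)` is NIP. Let `Δ` be the largest
convex subgroup of `Γ` which is divisible by `d` for every degree `d` of a finite separable extension
of the residue field of `O` (this is the set of all `γ` such that all elements between `0` and `γ`
and all such `d` have this property). Then the coarsening of `O` with value group `Γ / Δ` is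
henselian, and so are the rings which contain it; they are comparable with all valuation rings of
`K'` whose residue fields are not algebraically closed. In particular, if for some `d` the residue
field of `O` has a separable extension of degree `d` and `Γ` has no `d`-divisible convex subgroup
different from `0`, then `O` is henselian. For example this holds if the residue field is not
separably closed and the value group is a subgroup of the real numbers which is not divisible by the
degree of some separable extension of the residue field.

(The henselianity conjecture, in positive characteristic a theorem of Johnson, is about valuation
rings `O` such that the valued field `(K', O)` is NIP. Here only the field has to be NIP.)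

Proof. For a value `v(y)` not divisible by `d`, the largest ring over `O` for which `v(y)` is not
divisible by `d` is definable by the result `DefinableCoarsenings`, hence henselian by Johnson's
theorem (`Pool.Agent.K4H89.J.henselian_of_definable`). The coarsening for `Δ` is the intersection of
these rings, and every nonunit of it is a nonunit of one of them.
-/

set_option autoImplicit false

namespace Pool.Agent.Results.MP_3554b5_lc.HenselianValuations

open Pool.Agent.W882.Nip3 Pool.Agent.K4H89.NV

/-- Let `K` be an NIP field (the hypothesis of `S14569`) of characteristic `p > 0`, let `K'` be
elementarily equivalent to `K`, and let `O ≤ O₁` be valuation rings of `K'`. Suppose that for every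
nonzero nonunit `x` of `O₁` there are a degree `d ≥ 2` of a separable extension of the residue field
of `O` and an element `y` of `O` which divides `x` in `O` and whose value (in the value group of
`O`) is not divisible by `d`. Then `O₁` is henselian, and it is comparable with all valuation rings
of `K'` whose residue fields are not algebraically closed. -/
theorem result (K : Type) [Field K] [FirstOrder.Ring.CompatibleRing K] (hK : NIPField K)
    (p : ℕ) (hp : p.Prime) [CharP K p]
    (K' : Type) [Field K'] [FirstOrder.Ring.CompatibleRing K']
    (he : FirstOrder.Language.ring.ElementarilyEquivalent K K')
    (O O₁ : ValuationSubring K') (hle : O ≤ O₁)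
    (h : ∀ x : K', x ≠ 0 → O₁.valuation x < 1 →
      ∃ (d : ℕ) (y : K'), 2 ≤ d ∧ HasSepExt (IsLocalRing.ResidueField O) d ∧ y ∈ O ∧ x / y ∈ O ∧
        NotDivisible O d y) :
    HenselianLocalRing O₁ ∧ ∀ O₂ : ValuationSubring K',
      ¬ IsAlgClosed (IsLocalRing.ResidueField O₂) → O₁ ≤ O₂ ∨ O₂ ≤ O₁ := by
  have : Fact p.Prime := ⟨hp⟩
  have h1 := Pool.Agent.K4H89.J.henselian_of_seen K hK p K' he O O₁ hle h
  exact ⟨h1, fun O₂ h2 => Pool.Agent.K4H89.J.comparable_of_henselian h1 h2⟩

end Pool.Agent.Results.MP_3554b5_lc.HenselianValuations
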